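import Pool.Agent.W606.PS.Stm

/-! Project PS: no `K_{3,3}`-like configuration. -/

set_option autoImplicit false

open Set Relation

namespace Pool.Agent.W143.PS.K33

open Pool.Agent.W606.PS

variable {V T : Type}

/-- absorb the rest of the vertices into given disjoint connected sets -/
theorem absorb {J : Type} {G : SimpleGraph V} (hG : Con G univ) (S : J → Set V)
    (hc : ∀ j, Con G (S j)) (hd : ∀ i j, i ≠ j → Disjoint (S i) (S j)) (j0 : J) :
    ∃ S' : J → Set V, (∀ j, S j ⊆ S' j) ∧ (∀ j, Con G (S' j)) ∧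
      (∀ i j, i ≠ j → Disjoint (S' i) (S' j)) ∧ (⋃ j, S' j) = univ := by
  classical
  have hex : ∀ K : Set V, IsComp G (⋃ j, S j)ᶜ K → ∃ j, Tch G K (S j) := by
    intro K hK
    obtain ⟨u, hu⟩ := hK.2.1.1
    obtain ⟨v, hv⟩ := (hc j0).1
    have hvK : v ∉ K := fun h => hK.1 h (mem_iUnion.2 ⟨j0, hv⟩)
    obtain ⟨a, b, -, -, ha, hb, e⟩ := hG.exit (mem_univ u) hu (mem_univ v) hvK
    by_cases hbU : b ∈ ⋃ j, S j
    · obtain ⟨j, hj⟩ := mem_iUnion.1 hbU
      exact ⟨j, a, ha, b, hj, e⟩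
    · exact absurd (hK.2.2 a ha b hbU e) hb
  have hm : ∀ K : Set V, ∃ j, IsComp G (⋃ j, S j)ᶜ K → Tch G K (S j) := by
    intro K
    by_cases hK : IsComp G (⋃ j, S j)ᶜ K
    · obtain ⟨j, hj⟩ := hex K hK
      exact ⟨j, fun _ => hj⟩
    · exact ⟨j0, fun h => absurd h hK⟩
  choose m hm using hm
  refine ⟨fun j => {v | v ∈ S j ∨ ∃ K, IsComp G (⋃ j, S j)ᶜ K ∧ m K = j ∧ v ∈ K},
    fun j v hv => Or.inl hv, fun j => ?_, fun i j hij => ?_, ?_⟩
  · refine con_of_cover (hc j) (fun v hv => Or.inl hv) ?_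
    rintro v (hv | ⟨K, hK, hmK, hv⟩)
    · exact ⟨S j, hv, fun w hw => Or.inl hw, hc j, ⟨v, hv, hv⟩⟩
    · have ht := hm K hK
      rw [hmK] at ht
      refine ⟨K ∪ S j, Or.inl hv, ?_, hK.2.1.union_tch (hc j) ht, ?_⟩
      · rintro w (hw | hw)
        · exact Or.inr ⟨K, hK, hmK, hw⟩
        · exact Or.inl hw
      · obtain ⟨w, hw⟩ := (hc j).1
        exact ⟨w, Or.inr hw, hw⟩
  · rw [Set.disjoint_left]
    rintro v (hv | ⟨K, hK, hmK, hv⟩) (hv' | ⟨K', hK', hmK', hv'⟩)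
    · exact Set.disjoint_left.1 (hd i j hij) hv hv'
    · exact hK'.1 hv' (mem_iUnion.2 ⟨i, hv⟩)
    · exact hK.1 hv (mem_iUnion.2 ⟨j, hv'⟩)
    · have := hK.eq_of_inter hK' ⟨v, hv, hv'⟩
      apply hij
      rw [← hmK, ← hmK', this]
  · rw [eq_univ_iff_forall]
    intro v
    by_cases hv : v ∈ ⋃ j, S j
    · obtain ⟨j, hj⟩ := mem_iUnion.1 hv
      exact mem_iUnion.2 ⟨j, Or.inl hj⟩
    · obtain ⟨K, hK, hvK⟩ := exists_comp G (S := (⋃ j, S j)ᶜ) (u := v) hv
      exact mem_iUnion.2 ⟨m K, Or.inr ⟨K, hK, rfl, hvK⟩⟩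

/-- add `P` to the class `0` -/
def ad (Z : Fin 3 → Set V) (P : Set V) : Fin 3 → Set V := fun i => {v | v ∈ Z i ∨ (i = 0 ∧ v ∈ P)}

theorem ad_sub (Z : Fin 3 → Set V) (P : Set V) (i : Fin 3) : Z i ⊆ ad Z P i := fun _ h => Or.inl h

theorem ad_mono (Z : Fin 3 → Set V) {P Q : Set V} (h : P ⊆ Q) (i : Fin 3) : ad Z P i ⊆ ad Z Q i := by
  rintro v (hv | ⟨h0, hv⟩)
  · exact Or.inl hv
  · exact Or.inr ⟨h0, h hv⟩

theorem ad_con {G : SimpleGraph V} (Z : Fin 3 → Set V) (P : Set V) (h : ∀ i, Con G (Z i))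
    (h0 : Con G (Z 0 ∪ P)) (i : Fin 3) : Con G (ad Z P i) := by
  by_cases hi : i = 0
  · subst hi
    have : ad Z P 0 = Z 0 ∪ P := by
      ext v; simp [ad]
    rw [this]; exact h0
  · have : ad Z P i = Z i := by
      ext v; simp [ad, hi]
    rw [this]; exact h i

theorem ad_disj (Z : Fin 3 → Set V) (P : Set V) (h : ∀ i j, i ≠ j → Disjoint (Z i) (Z j))
    (h0 : ∀ i, Disjoint P (Z i)) (i j : Fin 3) (hij : i ≠ j) : Disjoint (ad Z P i) (ad Z P j) := by
  rw [Set.disjoint_left]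
  rintro v (hv | ⟨hi, hv⟩) (hv' | ⟨hj, hv'⟩)
  · exact Set.disjoint_left.1 (h i j hij) hv hv'
  · exact Set.disjoint_left.1 (h0 i) hv' hv
  · exact Set.disjoint_left.1 (h0 j) hv hv'
  · exact hij (hi.trans hj.symm)

theorem ad_union (Z : Fin 3 → Set V) (P : Set V) : (⋃ i, ad Z P i) = (⋃ i, Z i) ∪ P := by
  ext v
  simp only [mem_iUnion, mem_union]
  constructor
  · rintro ⟨i, hv | ⟨_, hv⟩⟩
    · exact Or.inl ⟨i, hv⟩
    · exact Or.inr hv
  · rintro (⟨i, hv⟩ | hv)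
    · exact ⟨i, Or.inl hv⟩
    · exact ⟨0, Or.inr ⟨rfl, hv⟩⟩

theorem rain_mono {tv : T → Fin 3 → V} {Z Z' : Fin 3 → Set V} (h : ∀ i, Z i ⊆ Z' i) {t : T}
    (hr : Rain tv Z t) : Rain tv Z' t := by
  obtain ⟨s, hs⟩ := hr
  exact ⟨s, fun i => h i (hs i)⟩

theorem tch_mono {G : SimpleGraph V} {A B A' B' : Set V} (hA : A ⊆ A') (hB : B ⊆ B')
    (h : Tch G A B) : Tch G A' B' := by
  obtain ⟨u, hu, v, hv, e⟩ := h
  exact ⟨u, hA hu, v, hB hv, e⟩

/-- the case of a partition -/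
theorem part (hF : S_FACTA) (G : SimpleGraph V) (tv : T → Fin 3 → V) (hS : Sph G tv)
    (Om La : Set V) (Z : Fin 3 → Set V) (hO : Con G Om) (hL : Con G La) (hZ : ∀ i, Con G (Z i))
    (hd : ∀ i j, i ≠ j → Disjoint (Z i) (Z j)) (hOL : Disjoint Om La)
    (hOZ : ∀ i, Disjoint Om (Z i)) (hLZ : ∀ i, Disjoint La (Z i)) (tO : ∀ i, Tch G Om (Z i))
    (tL : ∀ i, Tch G La (Z i)) (hcov : (⋃ i, Z i) ∪ (Om ∪ La) = univ) (t0 : T)
    (ht0 : Rain tv Z t0) : False := by
  have hOLZ : ∀ i, Disjoint (Om ∪ La) (Z i) := fun i =>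
    Disjoint.union_left (hOZ i) (hLZ i)
  have c1 : Con G (Z 0 ∪ Om) := (hZ 0).union_tch hO (tO 0).symm
  have c2 : Con G (Z 0 ∪ La) := (hZ 0).union_tch hL (tL 0).symm
  have c3 : Con G (Z 0 ∪ (Om ∪ La)) := by
    have := c1.union_tch hL (tch_mono subset_union_left subset_rfl (tL 0).symm)
    rwa [union_assoc] at this
  have con' := ad_con Z (Om ∪ La) hZ c3
  have disj' := ad_disj Z (Om ∪ La) hd hOLZ
  have cov' : (⋃ i, ad Z (Om ∪ La) i) = univ := by rw [ad_union]; exact hcov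
  -- the region Om
  have r1 : RD3 G tv Om (ad Z La) := by
    refine ⟨hO, ad_con Z La hZ c2, ad_disj Z La hd hLZ, ?_, ⟨t0, rain_mono (ad_sub Z La) ht0⟩,
      fun i => tch_mono subset_rfl (ad_sub Z La i) (tO i)⟩
    rw [ad_union]
    ext v
    rw [mem_union, mem_compl_iff]
    constructor
    · rintro (hv | hv) hvO
      · obtain ⟨i, hi⟩ := mem_iUnion.1 hv
        exact Set.disjoint_left.1 (hOZ i) hvO hi
      · exact Set.disjoint_left.1 hOL hvO hv
    · intro hv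
      have : v ∈ (⋃ i, Z i) ∪ (Om ∪ La) := by rw [hcov]; trivial
      rcases this with h | h | h
      · exact Or.inl h
      · exact absurd h hv
      · exact Or.inr h
  have r2 : RD3 G tv La (ad Z Om) := by
    refine ⟨hL, ad_con Z Om hZ c1, ad_disj Z Om hd hOZ, ?_, ⟨t0, rain_mono (ad_sub Z Om) ht0⟩,
      fun i => tch_mono subset_rfl (ad_sub Z Om i) (tL i)⟩
    rw [ad_union]
    ext v
    rw [mem_union, mem_compl_iff]
    constructor
    · rintro (hv | hv) hvO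
      · obtain ⟨i, hi⟩ := mem_iUnion.1 hv
        exact Set.disjoint_left.1 (hLZ i) hvO hi
      · exact Set.disjoint_left.1 hOL hv hvO
    · intro hv
      have : v ∈ (⋃ i, Z i) ∪ (Om ∪ La) := by rw [hcov]; trivial
      rcases this with h | h | h
      · exact Or.inl h
      · exact Or.inr h
      · exact absurd h hv
  obtain ⟨t1, ht1, i1, hi1⟩ := hF V T G tv hS Om _ r1 (ad Z (Om ∪ La))
    (ad_mono Z subset_union_right) con' disj' cov'
  obtain ⟨t2, ht2, i2, hi2⟩ := hF V T G tv hS La _ r2 (ad Z (Om ∪ La))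
    (ad_mono Z subset_union_left) con' disj' cov'
  have hn0 : ∀ j, tv t0 j ∉ Om ∧ tv t0 j ∉ La := by
    obtain ⟨s, hs⟩ := ht0
    intro j
    have := hs (s.symm j)
    rw [Equiv.apply_symm_apply] at this
    exact ⟨fun h => Set.disjoint_left.1 (hOZ _) h this, fun h => Set.disjoint_left.1 (hLZ _) h this⟩
  rcases hS.three_b _ con' disj' cov' t0 t1 t2 (rain_mono (ad_sub Z _) ht0) ht1 ht2 with h | h | h
  · rw [← h] at hi1
    exact (hn0 i1).1 hi1
  · rw [← h] at hi2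
    exact (hn0 i2).2 hi2
  · rw [← h] at hi2
    obtain ⟨s, hs⟩ := ht1
    have key : ∀ j, tv t1 j ∈ Om ∪ La → j = s 0 := by
      intro j hj
      by_contra hne
      have h3 : s.symm j ≠ 0 := fun h => hne (by rw [← h, Equiv.apply_symm_apply])
      have h4 := hs (s.symm j)
      rw [Equiv.apply_symm_apply] at h4
      rcases h4 with h4 | ⟨h4, _⟩
      · exact Set.disjoint_left.1 (hOLZ _) hj h4
      · exact h3 h4
    have e1 := key i1 (Or.inl hi1)
    have e2 := key i2 (Or.inr hi2)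
    rw [e1] at hi1
    rw [e2] at hi2
    exact Set.disjoint_left.1 hOL hi1 hi2

/-- the five sets -/
def five (Om La : Set V) (Z : Fin 3 → Set V) : Option (Option (Fin 3)) → Set V
  | none => Om
  | some none => La
  | some (some i) => Z i

theorem main (h : S_FACTA) : S_K33 := by
  intro V T G tv hS Om La Z hO hL hZ hd hOL hOZ hLZ tO tL ⟨t0, ht0⟩
  obtain ⟨S', h1, h2, h3, h4⟩ := absorb hS.conn (five Om La Z)
    (by
      rintro (_ | _ | i)
      · exact hO
      · exact hL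
      · exact hZ i)
    (by
      rintro (_ | _ | i) (_ | _ | j) hij
      · exact absurd rfl hij
      · exact hOL
      · exact hOZ j
      · exact hOL.symm
      · exact absurd rfl hij
      · exact hLZ j
      · exact (hOZ i).symm
      · exact (hLZ i).symm
      · exact hd i j (fun e => hij (by rw [e])))
    none
  refine part h G tv hS (S' none) (S' (some none)) (fun i => S' (some (some i))) (h2 _) (h2 _)
    (fun i => h2 _) (fun i j hij => h3 _ _ (by simpa using hij)) (h3 _ _ (by simp))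
    (fun i => h3 _ _ (by simp)) (fun i => h3 _ _ (by simp))
    (fun i => tch_mono (h1 none) (h1 (some (some i))) (tO i))
    (fun i => tch_mono (h1 (some none)) (h1 (some (some i))) (tL i)) ?_ t0
    (rain_mono (fun i => h1 (some (some i))) ht0)
  rw [eq_univ_iff_forall]
  intro v
  have : v ∈ ⋃ j, S' j := by rw [h4]; trivial
  obtain ⟨j, hj⟩ := mem_iUnion.1 this
  rcases j with _ | _ | i
  · exact Or.inr (Or.inl hj)
  · exact Or.inr (Or.inr hj)
  · exact Or.inl (mem_iUnion.2 ⟨i, hj⟩)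

end Pool.Agent.W143.PS.K33
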